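import Pool.Agent.V11245.Filt.Cong

/-!
MP_78c350_an, Q1: disproved. There is (in ZFC) a free filter on the natural numbers which is
neither poor nor conglomerated.
-/

namespace Pool.Agent.Results.MP_78c350_an.NeitherPoorNorCong

open Pool.Agent.V11245.Filt

/-- There is a free filter on the naturals that is neither poor nor conglomerated. -/
theorem result : ∃ F : Filter ℕ, IsFree F ∧ ¬ IsPoor F ∧ ¬ IsConglomerated F :=
  exists_not_poor_not_conglomerated

end Pool.Agent.Results.MP_78c350_an.NeitherPoorNorCong
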